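import Pool.Agent.V5helper18.Ma.D

set_option autoImplicit false

open scoped Manifold ContDiff Topology
open Set Filter

namespace Pool.Agent.Results.MP_610fe3_an.C0Stability

open Pool.Agent.H721R2 Pool.Agent.H789R2.AN

/-- **Transitivity of Anosov diffeomorphisms is locally constant in the `C⁰` topology.**
Let `g` be a `C¹` Anosov diffeomorphism of a closed connected manifold `M` (transitive or not) and
let `𝒱` be a neighbourhood of the diagonal of `M × M`.  There is a neighbourhood `𝒰` of the diagonal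
such that the following holds for every `C¹` Anosov diffeomorphism `f` of `M` that is `𝒰`-close to
`g` in the `C⁰` sense, that is `(f x, g x) ∈ 𝒰` for all `x`.  (No closeness of the derivatives, of the
splittings or of the hyperbolicity constants is assumed.)  There is a continuous `h : M → M`,
`𝒱`-close to the identity, with `h ∘ f = g ∘ h`, such that
* `h` maps the points fixed by `fⁿ` bijectively onto the points fixed by `gⁿ`, for every `n ≥ 1`;
* the fibre of `h` through each point of the closure of the periodic points of `f` (the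
  nonwandering set of `f`) is a single point, and `h` maps this set onto the closure of the
  periodic points of `g`;
* `f` is topologically transitive if and only if `g` is;
* if `g` is topologically transitive, then `h` is a homeomorphism, so `f` is conjugate to `g`.

So, among the Anosov diffeomorphisms of `M`, the transitive ones form a subset that is both open and
closed in the `C⁰` topology. -/
theorem result (E : Type*) [NormedAddCommGroup E] [NormedSpace ℝ E] [FiniteDimensional ℝ E]
    (M : Type*) [TopologicalSpace M] [T2Space M] [CompactSpace M] [ConnectedSpace M]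
    [ChartedSpace E M] [IsManifold 𝓘(ℝ, E) ∞ M] (g : Diffeomorph 𝓘(ℝ, E) 𝓘(ℝ, E) M M 1)
    (Es Eu : ∀ x : M, Submodule ℝ (TangentSpace 𝓘(ℝ, E) x)) (hg : IsAnosov g Es Eu)
    (𝒱 : Set (M × M)) (h𝒱 : 𝒱 ∈ 𝓝ˢ (diagonal M)) :
    ∃ 𝒰 ∈ 𝓝ˢ (diagonal M), ∀ (f : Diffeomorph 𝓘(ℝ, E) 𝓘(ℝ, E) M M 1)
      (Es' Eu' : ∀ x : M, Submodule ℝ (TangentSpace 𝓘(ℝ, E) x)), IsAnosov f Es' Eu' →
      (∀ x, (f x, g x) ∈ 𝒰) →
      ∃ h : C(M, M), (∀ x, h (f x) = g (h x)) ∧ (∀ x, (h x, x) ∈ 𝒱) ∧
        (∀ n ≥ 1, BijOn h {p | f^[n] p = p} {q | g^[n] q = q}) ∧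
        (∀ x ∈ closure {p | ∃ n ≥ 1, f^[n] p = p}, ∀ x', h x' = h x → x' = x) ∧
        h '' closure {p | ∃ n ≥ 1, f^[n] p = p} = closure {q | ∃ n ≥ 1, g^[n] q = q} ∧
        (TopTransitive f ↔ TopTransitive g) ∧ (TopTransitive g → IsHomeomorph h) := by
  obtain ⟨𝒰, h𝒰, hm⟩ := Pool.Agent.V5helper18.Ma.top_main g Es Eu hg h𝒱
  refine ⟨𝒰, h𝒰, fun f Es' Eu' hf hfg => ?_⟩
  obtain ⟨h, hc, hh, hd, h1, h2, h3, h4, h5⟩ := hm f Es' Eu' hf hfg
  exact ⟨⟨h, hc⟩, hh, hd, h1, h2, h3, h4, fun hT =>
    isHomeomorph_iff_continuous_bijective.2 ⟨hc, h5 hT⟩⟩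

end Pool.Agent.Results.MP_610fe3_an.C0Stability
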