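import Pool.Agent.V5helper18.Nf.R

set_option autoImplicit false

open scoped Manifold ContDiff Topology
open Set Filter

namespace Pool.Agent.Results.MP_610fe3_an.CoarselyHyperbolicClass

open Pool.Agent.H721R2 Pool.Agent.H789R2.AN Pool.Agent.V5helper18.Nf

/-- **Anosov diffeomorphisms homotopic to a coarsely hyperbolic one.**
Let `M` and `N` be closed connected manifolds covered by a finite-dimensional normed space `E`:
there are covering maps `π : E → M` and `ρ : E → N` that are local `C¹` diffeomorphisms (`M` and `N`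
need not be infranilmanifolds).  Let `g` be a `C¹` Anosov diffeomorphism of `N` with a lift
`G : E → E` that is coarsely hyperbolic: two full `G`-orbits that remain near each other coincide,
and every sequence `x n` in `E` for which `G (x n)` remains near `x (n + 1)` remains near a
`G`-orbit; here two points of `E` are `R`-near if a deck transformation of `ρ` moves both into the
ball of radius `R` about `0`, so that nothing is assumed on a bounded scale.  Let `f` be a `C¹`
Anosov diffeomorphism of `M`, and let `k : M → N` be a homotopy equivalence with `k ∘ f` homotopic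
to `g ∘ k` (for instance `M = N`, `k` the identity and `f` homotopic to `g`).  Then `f` and `g` are
topologically transitive, and `f` is topologically conjugate to `g`. -/
theorem result (E : Type*) [NormedAddCommGroup E] [NormedSpace ℝ E] [FiniteDimensional ℝ E]
    (M : Type*) [TopologicalSpace M] [T2Space M] [CompactSpace M] [ConnectedSpace M]
    [ChartedSpace E M] [IsManifold 𝓘(ℝ, E) ∞ M]
    (N : Type*) [TopologicalSpace N] [T2Space N] [CompactSpace N] [ConnectedSpace N]
    [ChartedSpace E N] [IsManifold 𝓘(ℝ, E) ∞ N]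
    (π : E → M) (hπ : IsCoveringMap π) (hπ' : IsLocalDiffeomorph 𝓘(ℝ, E) 𝓘(ℝ, E) 1 π)
    (ρ : E → N) (hρ : IsCoveringMap ρ) (hρ' : IsLocalDiffeomorph 𝓘(ℝ, E) 𝓘(ℝ, E) 1 ρ)
    (g : Diffeomorph 𝓘(ℝ, E) 𝓘(ℝ, E) N N 1)
    (Es' Eu' : ∀ x : N, Submodule ℝ (TangentSpace 𝓘(ℝ, E) x)) (hg : IsAnosov g Es' Eu')
    (G : E ≃ₜ E) (hG : ∀ x, ρ (G x) = g (ρ x)) (hc : CoarselyHyperbolic ρ G)
    (f : Diffeomorph 𝓘(ℝ, E) 𝓘(ℝ, E) M M 1)
    (Es Eu : ∀ x : M, Submodule ℝ (TangentSpace 𝓘(ℝ, E) x)) (hf : IsAnosov f Es Eu)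
    (k : ContinuousMap.HomotopyEquiv M N)
    (hk : (k.toFun.comp (⟨f, f.continuous⟩ : C(M, M))).Homotopic
      ((⟨g, g.continuous⟩ : C(N, N)).comp k.toFun)) :
    TopTransitive g ∧ TopTransitive f ∧ ∃ h : M ≃ₜ N, ∀ x, h (f x) = g (h x) :=
  ⟨tt_of_coarse hρ g Es' Eu' hg hG hc,
    main2' hπ hπ' hρ hρ' g Es' Eu' hg hG hc f Es Eu hf k hk⟩

end Pool.Agent.Results.MP_610fe3_an.CoarselyHyperbolicClass
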