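import Pool.Agent.V5helper18.Nf.Q

set_option autoImplicit false

open scoped Manifold ContDiff Topology
open Set Filter

namespace Pool.Agent.Results.MP_610fe3_an.HomotopySemiconjugacy

open Pool.Agent.H721R2 Pool.Agent.H789R2.AN Pool.Agent.V5helper18.Nf

/-- **Semiconjugacies between Anosov diffeomorphisms that are homotopy equivalences.**
Let `M` and `N` be closed connected manifolds covered by a finite-dimensional normed space `E`:
there are covering maps `π : E → M` and `ρ : E → N` that are local `C¹` diffeomorphisms (`M` and `N`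
need not be infranilmanifolds).  Let `f` and `g` be `C¹` Anosov diffeomorphisms of `M` and `N`.
Suppose that every lift to `E` of every iterate `gⁿ`, `n ≥ 1`, has at most one fixed point.  Let
`h : M → N` be a homotopy equivalence with `h ∘ f = g ∘ h`.  Then
* `h` maps the points fixed by `fⁿ` bijectively onto the points fixed by `gⁿ`, for every `n ≥ 1`;
* the fibre of `h` through each point of the closure of the periodic points of `f` (the
  nonwandering set of `f`) is a single point, and `h` maps this set onto the closure of the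
  periodic points of `g`;
* `f` is topologically transitive if and only if `g` is;
* if `g` is topologically transitive, then `h` is a homeomorphism, so `f` is conjugate to `g`. -/
theorem result (E : Type*) [NormedAddCommGroup E] [NormedSpace ℝ E] [FiniteDimensional ℝ E]
    (M : Type*) [TopologicalSpace M] [T2Space M] [CompactSpace M] [ConnectedSpace M]
    [ChartedSpace E M] [IsManifold 𝓘(ℝ, E) ∞ M]
    (N : Type*) [TopologicalSpace N] [T2Space N] [CompactSpace N] [ConnectedSpace N]
    [ChartedSpace E N] [IsManifold 𝓘(ℝ, E) ∞ N]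
    (π : E → M) (hπ : IsCoveringMap π) (hπ' : IsLocalDiffeomorph 𝓘(ℝ, E) 𝓘(ℝ, E) 1 π)
    (ρ : E → N) (hρ : IsCoveringMap ρ) (hρ' : IsLocalDiffeomorph 𝓘(ℝ, E) 𝓘(ℝ, E) 1 ρ)
    (f : Diffeomorph 𝓘(ℝ, E) 𝓘(ℝ, E) M M 1)
    (Es Eu : ∀ x : M, Submodule ℝ (TangentSpace 𝓘(ℝ, E) x)) (hf : IsAnosov f Es Eu)
    (g : Diffeomorph 𝓘(ℝ, E) 𝓘(ℝ, E) N N 1)
    (Es' Eu' : ∀ x : N, Submodule ℝ (TangentSpace 𝓘(ℝ, E) x)) (hg : IsAnosov g Es' Eu')
    (hu : UniqueFixedLifts ρ g) (h : ContinuousMap.HomotopyEquiv M N)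
    (hh : ∀ x, h (f x) = g (h x)) :
    (∀ n ≥ 1, BijOn h {p | f^[n] p = p} {q | g^[n] q = q}) ∧
    (∀ x ∈ closure {p | ∃ n ≥ 1, f^[n] p = p}, ∀ x', h x' = h x → x' = x) ∧
    h '' closure {p | ∃ n ≥ 1, f^[n] p = p} = closure {q | ∃ n ≥ 1, g^[n] q = q} ∧
    (TopTransitive f ↔ TopTransitive g) ∧ (TopTransitive g → IsHomeomorph h) := by
  obtain ⟨c1, c2, c3, c4, c5⟩ := main1' hπ hπ' hρ hρ' f g Es Eu hf Es' Eu' hg hu h hh
  exact ⟨c1, c2, c3, c4, fun hT =>
    isHomeomorph_iff_continuous_bijective.2 ⟨h.toFun.continuous, c5 hT⟩⟩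

end Pool.Agent.Results.MP_610fe3_an.HomotopySemiconjugacy
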