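import Pool.Agent.V5helper18.Mb.J

set_option autoImplicit false

open scoped Manifold ContDiff Topology
open Set Filter

namespace Pool.Agent.Results.MP_610fe3_an.MinimalField

open Pool.Agent.H721R2 Pool.Agent.H789R2.AN Pool.Agent.V5helper18.Mb

/-- **Transitivity of an Anosov diffeomorphism is a property of its unstable plane field alone, and
an open one.**  A field `V` of tangent subspaces of `M` is *minimal* if the only nonempty closed
set `A` whose contingent cone at each point `x ∈ A` contains `V x` is `M` itself (no manifold
structure of `A`, no leaves and no dynamics are involved in this notion).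

Part 1.  For every `C¹` Anosov diffeomorphism `f` of the closed connected manifold `M` the fields
`Es` and `Eu` are closed subsets of the tangent bundle, and `f` is topologically transitive if and
only if `Eu` is minimal, if and only if `Es` is minimal.

Part 2.  Let `V` be any closed minimal field of tangent subspaces (for instance the stable or the
unstable field of a transitive Anosov diffeomorphism `g`, by Part 1), and let `D` be an open set of
tangent vectors that contains the nonzero vectors of `V` (for instance the complement of a closed
cone field transverse to `V`).  There is an open set `C` of tangent vectors containing the nonzero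
vectors of `V` such that *every* `C¹` Anosov diffeomorphism `f` of `M` whose nonzero unstable
vectors lie in `C` and whose nonzero stable vectors lie outside `D` is topologically transitive,
and so is every `f` whose nonzero stable vectors lie in `C` and whose nonzero unstable vectors lie
outside `D`.  Nothing else is assumed on `f`: it need not be close to any given diffeomorphism,
and its hyperbolicity constants and homotopy class are arbitrary. -/
theorem result (E : Type*) [NormedAddCommGroup E] [NormedSpace ℝ E] [FiniteDimensional ℝ E]
    (M : Type*) [TopologicalSpace M] [T2Space M] [CompactSpace M] [ConnectedSpace M]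
    [ChartedSpace E M] [IsManifold 𝓘(ℝ, E) ∞ M] :
    (∀ (f : Diffeomorph 𝓘(ℝ, E) 𝓘(ℝ, E) M M 1)
      (Es Eu : ∀ x : M, Submodule ℝ (TangentSpace 𝓘(ℝ, E) x)), IsAnosov f Es Eu →
      ClosedField Es ∧ ClosedField Eu ∧ (TopTransitive f ↔ MinimalField Eu) ∧
        (TopTransitive f ↔ MinimalField Es)) ∧
    ∀ V : ∀ x : M, Submodule ℝ (TangentSpace 𝓘(ℝ, E) x), ClosedField V → MinimalField V →
      ∀ D : Set (TangentBundle 𝓘(ℝ, E) M), IsOpen D → NonzeroIn V D →
      ∃ C : Set (TangentBundle 𝓘(ℝ, E) M), IsOpen C ∧ NonzeroIn V C ∧
        ∀ (f : Diffeomorph 𝓘(ℝ, E) 𝓘(ℝ, E) M M 1)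
          (Es Eu : ∀ x : M, Submodule ℝ (TangentSpace 𝓘(ℝ, E) x)), IsAnosov f Es Eu →
          (NonzeroIn Eu C ∧ NonzeroIn Es Dᶜ) ∨ (NonzeroIn Es C ∧ NonzeroIn Eu Dᶜ) →
          TopTransitive f := by
  refine ⟨fun f Es Eu hf => ?_, fun V hV hm D hD hVD => trans_of_near V hV hm D hD hVD⟩
  have hf' := anosov_symm f Es Eu hf
  refine ⟨closed_u f.symm Eu Es hf', closed_u f Es Eu hf,
    ⟨min_of_trans f Es Eu hf, trans_of_min f Es Eu hf⟩, fun hT => ?_, fun hm => ?_⟩
  · exact min_of_trans f.symm Eu Es hf' (transitive_symm f.symm.toHomeomorph hT)
  · exact transitive_symm f.toHomeomorph (trans_of_min f.symm Eu Es hf' hm)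

end Pool.Agent.Results.MP_610fe3_an.MinimalField
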